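import Pool.Agent.Y922.NV.Stm

set_option autoImplicit false

/-!
Project NV (helper922), part LAC (helper813): phase of the lacunary part.
-/

namespace Pool.Agent.Y813.NV

open scoped Real
open Pool.Agent.Y922.NV

theorem atan_le {y : ℝ} (hy : 0 < y) : Real.arctan y ≤ y := by
  have h1 : 0 < Real.arctan y := Real.arctan_pos.mpr hy
  have h2 := Real.lt_tan h1 (Real.arctan_lt_pi_div_two y)
  rw [Real.tan_arctan] at h2
  exact h2.le

theorem atan_ge {y : ℝ} (hy : 0 < y) : π / 2 - 1 / y ≤ Real.arctan y := by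
  have h1 := Real.arctan_inv_of_pos (inv_pos.mpr hy)
  rw [inv_inv] at h1
  have h2 := atan_le (inv_pos.mpr hy)
  rw [h1, one_div]
  linarith

theorem t_LAC : S_LAC := by
  intro N c x1 x2 h1 h2 h3
  have hd : 0 < x2 - x1 := by linarith
  have hsum1 : ∀ N : ℕ, ∑ n ∈ Finset.range N, ((1 / 2 : ℝ) ^ (n + 1)) = 1 - (1 / 2) ^ N := by
    intro N
    induction N with
    | zero => simp
    | succ k ih => rw [Finset.sum_range_succ, ih]; ring
  have hsum2 : ∀ N : ℕ, ∑ n ∈ Finset.range N, ((2 : ℝ) ^ (n + 1)) = 2 ^ (N + 1) - 2 := by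
    intro N
    induction N with
    | zero => simp
    | succ k ih => rw [Finset.sum_range_succ, ih]; ring
  have hterm : ∀ n ∈ Finset.range N, π - 2 / (x2 - x1) * (1 / 2) ^ (n + 1) -
      2 * (x1 - c) * 2 ^ (n + 1) ≤
      (2 * Real.arctan ((x2 - c) / (1 / 2) ^ (n + 1)) -
      2 * Real.arctan ((x1 - c) / (1 / 2) ^ (n + 1))) := by
    intro n _
    have hb : (0 : ℝ) < (1 / 2) ^ (n + 1) := by positivity
    have h2c : 0 < x2 - c := by linarith
    have e1 := atan_ge (div_pos h2c hb)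
    have e2 := atan_le (div_pos h1 hb)
    have e3 : 1 / ((x2 - c) / (1 / 2) ^ (n + 1)) ≤ 1 / (x2 - x1) * (1 / 2) ^ (n + 1) := by
      rw [one_div_div, div_eq_inv_mul]
      refine mul_le_mul_of_nonneg_right ?_ hb.le
      rw [one_div (x2 - x1)]
      exact inv_anti₀ hd (by linarith)
    have e4 : (x1 - c) / (1 / 2) ^ (n + 1) = (x1 - c) * 2 ^ (n + 1) := by
      rw [one_div, inv_pow, div_inv_eq_mul]
    have e5 : 2 / (x2 - x1) * (1 / 2) ^ (n + 1) = 2 * (1 / (x2 - x1) * (1 / 2) ^ (n + 1)) := by ring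
    rw [e5]
    rw [e4] at e2 ⊢
    linarith
  refine le_trans ?_ (Finset.sum_le_sum hterm)
  rw [Finset.sum_sub_distrib, Finset.sum_sub_distrib, ← Finset.mul_sum, ← Finset.mul_sum, hsum1, hsum2]
  simp only [Finset.sum_const, Finset.card_range, nsmul_eq_mul]
  have hN : (x1 - c) * 2 ^ N ≤ 1 := by
    have : (x1 - c) * 2 ^ N ≤ (1 / 2) ^ N * 2 ^ N := by gcongr
    rw [← mul_pow] at this
    norm_num at this
    exact this
  have hp : (0 : ℝ) < 2 / (x2 - x1) := by positivity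
  have hq : (0 : ℝ) < (1 / 2) ^ N := by positivity
  have e6 : (2 : ℝ) ^ (N + 1) = 2 * 2 ^ N := by ring
  rw [e6]
  nlinarith [mul_pos hp hq]

end Pool.Agent.Y813.NV
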